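import Mathlib
import Pool.Agent.MP_9020c0_gt.Defs

/-! The isoperimetric inequality for closed hexagons, with the signed area. -/

set_option autoImplicit false

open Set Metric

namespace Pool.Agent.MP_9020c0_gt.Cvx

/-- The point with given coordinates. -/
noncomputable def pnt (x y : ℝ) : Plane := !₂[x, y]

@[simp] lemma pnt_zero (x y : ℝ) : pnt x y 0 = x := rfl
@[simp] lemma pnt_one (x y : ℝ) : pnt x y 1 = y := rfl

lemma pl_ext {p q : Plane} (h0 : p 0 = q 0) (h1 : p 1 = q 1) : p = q := by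
  ext i
  fin_cases i
  exacts [h0, h1]

lemma dist_sq (p q : Plane) : dist p q ^ 2 = (p 0 - q 0) ^ 2 + (p 1 - q 1) ^ 2 := by
  rw [EuclideanSpace.dist_eq, Real.sq_sqrt (by positivity), Fin.sum_univ_two, Real.dist_eq,
    Real.dist_eq, sq_abs, sq_abs]

/-- Twice the signed area of a triangle. -/
def D (a b c : Plane) : ℝ := (b 0 - a 0) * (c 1 - a 1) - (b 1 - a 1) * (c 0 - a 0)

lemma apex (u x v : Plane) : ∃ y : Plane, dist u y = (dist u x + dist x v) / 2 ∧
    dist y v = (dist u x + dist x v) / 2 ∧ D u x v ≤ D u y v := by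
  by_cases huv : u = v
  · subst huv
    refine ⟨x, ?_, ?_, le_rfl⟩ <;> rw [dist_comm x u] <;> ring
  set a := dist u x with ha
  set b := dist x v with hb
  set c := dist u v with hc
  have c0 : 0 < c := dist_pos.2 huv
  have a0 : 0 ≤ a := dist_nonneg
  have b0 : 0 ≤ b := dist_nonneg
  have tri : c ≤ a + b := dist_triangle u x v
  have ea := dist_sq u x
  have eb := dist_sq x v
  have ec := dist_sq u v
  rw [← ha] at ea
  rw [← hb] at eb
  rw [← hc] at ec
  have s0 : 0 ≤ (a + b) ^ 2 - c ^ 2 := by nlinarith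
  set h := √((a + b) ^ 2 - c ^ 2) with hh
  have h0 : 0 ≤ h := Real.sqrt_nonneg _
  have h2 : h ^ 2 = (a + b) ^ 2 - c ^ 2 := Real.sq_sqrt s0
  set t := h / (2 * c) with ht
  have tc : t * c = h / 2 := by rw [ht]; field_simp
  have tc2 : t ^ 2 * c ^ 2 = ((a + b) ^ 2 - c ^ 2) / 4 := by
    rw [← mul_pow, tc, div_pow, h2]; norm_num
  refine ⟨pnt ((u 0 + v 0) / 2 + t * (v 1 - u 1)) ((u 1 + v 1) / 2 - t * (v 0 - u 0)),
    ?_, ?_, ?_⟩
  · refine (pow_left_inj₀ dist_nonneg (by positivity) two_ne_zero).1 ?_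
    rw [dist_sq]
    simp only [pnt_zero, pnt_one]
    linear_combination tc2 - (t ^ 2 + 1 / 4) * ec
  · refine (pow_left_inj₀ dist_nonneg (by positivity) two_ne_zero).1 ?_
    rw [dist_sq]
    simp only [pnt_zero, pnt_one]
    linear_combination tc2 - (t ^ 2 + 1 / 4) * ec
  · have e1 : D u (pnt ((u 0 + v 0) / 2 + t * (v 1 - u 1)) ((u 1 + v 1) / 2 - t * (v 0 - u 0))) v
        = h / 2 * c := by
      rw [← tc]
      simp only [D, pnt_zero, pnt_one]
      linear_combination (-t) * ec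
    rw [e1]
    refine (abs_le_of_sq_le_sq' ?_ (by positivity)).2
    have her : 4 * D u x v ^ 2 = 4 * a ^ 2 * b ^ 2 - (a ^ 2 + b ^ 2 - c ^ 2) ^ 2 := by
      rw [ea, eb, ec]
      simp only [D]
      ring
    have : (h / 2 * c) ^ 2 = ((a + b) ^ 2 - c ^ 2) * c ^ 2 / 4 := by rw [← h2]; ring
    rw [this]
    nlinarith [mul_nonneg s0 (sq_nonneg (a - b))]

lemma sq3 (P Q : ℝ) : 0 ≤ P ^ 2 + 2 * √3 * P * Q + 3 * Q ^ 2 := by
  have h : √3 ^ 2 = 3 := Real.sq_sqrt (by norm_num)
  nlinarith [sq_nonneg (P + √3 * Q)]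

/-- Twice the signed area of a closed hexagon. -/
def S (a b c d e f : Plane) : ℝ := D a b c + D a c d + D a d e + D a e f

/-- The perimeter of a closed hexagon. -/
noncomputable def Pm (a b c d e f : Plane) : ℝ :=
  dist a b + dist b c + dist c d + dist d e + dist e f + dist f a

/-- The sum of the squares of the sides of a closed hexagon. -/
noncomputable def Q (a b c d e f : Plane) : ℝ :=
  dist a b ^ 2 + dist b c ^ 2 + dist c d ^ 2 + dist d e ^ 2 + dist e f ^ 2 + dist f a ^ 2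

lemma sos (a b c d e f : Plane) : 2 * √3 * S a b c d e f ≤ 3 * Q a b c d e f := by
  simp only [S, Q, D, dist_sq]
  have h1 := sq3 (2 * a 0 - b 0 - c 0 + 2 * d 0 - e 0 - f 0) (b 1 - c 1 + e 1 - f 1)
  have h2 := sq3 (2 * a 1 - b 1 - c 1 + 2 * d 1 - e 1 - f 1) (-b 0 + c 0 - e 0 + f 0)
  have h3 := sq_nonneg (2 * (a 0 - b 0 + c 0 - d 0 + e 0 - f 0))
  have h4 := sq_nonneg (2 * (a 1 - b 1 + c 1 - d 1 + e 1 - f 1))
  have h5 := sq3 (2 * a 0 - b 0 - c 0 + 2 * d 0 - e 0 - f 0) (-(b 1 - c 1 + e 1 - f 1))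
  have h6 := sq3 (2 * a 1 - b 1 - c 1 + 2 * d 1 - e 1 - f 1) (b 0 - c 0 + e 0 - f 0)
  have h7 := sq3 (2 * a 0 + b 0 - c 0 - 2 * d 0 - e 0 + f 0) (-(b 1 + c 1 - e 1 - f 1))
  have h8 := sq3 (2 * a 1 + b 1 - c 1 - 2 * d 1 - e 1 + f 1) (b 0 + c 0 - e 0 - f 0)
  linear_combination (1 / 4) * h1 + (1 / 4) * h2 + (1 / 2) * h3 + (1 / 2) * h4 + (1 / 2) * h5 +
    (1 / 2) * h6 + (1 / 4) * h7 + (1 / 4) * h8

lemma eqz {ε p q s A B : ℝ} (hε : 0 < ε) (hs : s = (p + q) / 2) (hAB : A ≤ B)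
    (h : B - ε * (s ^ 2 + s ^ 2) ≤ A - ε * (p ^ 2 + q ^ 2)) : p = q := by
  subst hs
  have h1 : ε * (p - q) ^ 2 ≤ 0 := by nlinarith
  have h2 : (p - q) ^ 2 ≤ 0 := by
    by_contra h3
    push Not at h3
    nlinarith [mul_pos hε h3]
  have : p - q = 0 := pow_eq_zero_iff (two_ne_zero) |>.1 (le_antisymm h2 (sq_nonneg _))
  linarith

theorem hexalg (a b c d e f : Plane) : 4 * √3 * S a b c d e f ≤ Pm a b c d e f ^ 2 := by
  set L := Pm a b c d e f with hL
  let K : Set (Plane × Plane × Plane × Plane × Plane) :=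
    {w | Pm a w.1 w.2.1 w.2.2.1 w.2.2.2.1 w.2.2.2.2 ≤ L}
  have hK : IsCompact K := by
    refine isCompact_of_isClosed_isBounded (isClosed_le (by unfold Pm; fun_prop) continuous_const)
      ((isBounded_iff_subset_closedBall (a, a, a, a, a)).2 ⟨L, ?_⟩)
    rintro ⟨b, c, d, e, f⟩ hw
    simp only [K, Pm, mem_ofPred_eq] at hw
    have h1 := dist_triangle a b c
    have h2 := dist_triangle a c d
    have h3 := dist_triangle a d e
    have h4 := dist_triangle a e f
    have := @dist_nonneg _ _ a b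
    have := @dist_nonneg _ _ b c
    have := @dist_nonneg _ _ c d
    have := @dist_nonneg _ _ d e
    have := @dist_nonneg _ _ e f
    have := @dist_nonneg _ _ f a
    simp only [mem_closedBall, Prod.dist_eq, max_le_iff, dist_comm _ a]
    refine ⟨?_, ?_, ?_, ?_, ?_⟩ <;> linarith
  have r0 : 0 < √3 := by positivity
  have key : ∀ ε : ℝ, 0 < ε → 4 * √3 * (S a b c d e f - ε * Q a b c d e f) ≤ L ^ 2 := by
    intro ε hε
    obtain ⟨⟨b', c', d', e', f'⟩, hw, hmax⟩ := hK.exists_isMaxOn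
      (f := fun w => S a w.1 w.2.1 w.2.2.1 w.2.2.2.1 w.2.2.2.2 -
        ε * Q a w.1 w.2.1 w.2.2.1 w.2.2.2.1 w.2.2.2.2) ⟨(b, c, d, e, f), hL.ge⟩
      (by unfold S Q D; fun_prop)
    have hm : ∀ b c d e f, Pm a b c d e f ≤ L → S a b c d e f - ε * Q a b c d e f ≤
        S a b' c' d' e' f' - ε * Q a b' c' d' e' f' :=
      fun b c d e f h => hmax (a := (b, c, d, e, f)) h
    simp only [K, mem_ofPred_eq] at hw
    have q1 : dist a b' = dist b' c' := by
      obtain ⟨y, h1, h2, h3⟩ := apex a b' c'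
      have := hm y c' d' e' f' (by simp only [Pm, h1, h2] at hw ⊢; linarith)
      refine eqz hε rfl h3 ?_
      simp only [S, Q, h1, h2] at this
      linarith
    have q2 : dist b' c' = dist c' d' := by
      obtain ⟨y, h1, h2, h3⟩ := apex b' c' d'
      have := hm b' y d' e' f' (by simp only [Pm, h1, h2] at hw ⊢; linarith)
      refine eqz hε rfl h3 ?_
      simp only [S, Q, h1, h2, D] at this ⊢
      linarith
    have q3 : dist c' d' = dist d' e' := by
      obtain ⟨y, h1, h2, h3⟩ := apex c' d' e'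
      have := hm b' c' y e' f' (by simp only [Pm, h1, h2] at hw ⊢; linarith)
      refine eqz hε rfl h3 ?_
      simp only [S, Q, h1, h2, D] at this ⊢
      linarith
    have q4 : dist d' e' = dist e' f' := by
      obtain ⟨y, h1, h2, h3⟩ := apex d' e' f'
      have := hm b' c' d' y f' (by simp only [Pm, h1, h2] at hw ⊢; linarith)
      refine eqz hε rfl h3 ?_
      simp only [S, Q, h1, h2, D] at this ⊢
      linarith
    have q5 : dist e' f' = dist f' a := by
      obtain ⟨y, h1, h2, h3⟩ := apex e' f' a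
      have := hm b' c' d' e' y (by simp only [Pm, h1, h2] at hw ⊢; linarith)
      refine eqz hε rfl h3 ?_
      simp only [S, Q, h1, h2, D] at this ⊢
      linarith
    have s1 := sos a b' c' d' e' f'
    have s2 := hm b c d e f le_rfl
    have s3 : Q a b' c' d' e' f' = 6 * dist a b' ^ 2 := by
      simp only [Q, ← q5, ← q4, ← q3, ← q2, ← q1]; ring
    have s4 : 6 * dist a b' ≤ L := by
      simp only [Pm, ← q5, ← q4, ← q3, ← q2, ← q1] at hw; linarith
    have s5 : (6 * dist a b') ^ 2 ≤ L ^ 2 := by gcongr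
    have s6 : 0 ≤ ε * Q a b' c' d' e' f' := by rw [s3]; positivity
    nlinarith [mul_le_mul_of_nonneg_left s2 r0.le, mul_nonneg r0.le s6]
  have q0 : 0 ≤ Q a b c d e f := by unfold Q; positivity
  refine le_of_forall_pos_le_add fun δ hδ => ?_
  have := key (δ / (4 * √3 * (Q a b c d e f + 1))) (by positivity)
  have e1 : 4 * √3 * (δ / (4 * √3 * (Q a b c d e f + 1)) * Q a b c d e f) =
      δ * (Q a b c d e f / (Q a b c d e f + 1)) := by field_simp
  have e2 : Q a b c d e f / (Q a b c d e f + 1) ≤ 1 := (div_le_one (by positivity)).2 (by linarith)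
  nlinarith

end Pool.Agent.MP_9020c0_gt.Cvx
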