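import Pool.Agent.MP_9020c0_gt.Cvx.Nice

/-! At a corner of a convex tiling at least a third of the tiles have their top or their bottom. -/

set_option autoImplicit false

open Set Metric Filter Topology

namespace Pool.Agent.MP_9020c0_gt.Cvx

/-- The lexicographic order of the plane. -/
def Lx (a b : Plane) : Prop := a 1 < b 1 ∨ (a 1 = b 1 ∧ a 0 < b 0)

lemma Lx.total {a b : Plane} (h : ¬ Lx a b) (h' : ¬ Lx b a) : a = b := by
  simp only [Lx, not_or, not_and, not_lt] at h h'
  have e : a 1 = b 1 := le_antisymm h'.1 h.1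
  exact pl_ext (le_antisymm (h'.2 e.symm) (h.2 e)) e

lemma Lx.ev {a b : Plane} (h : Lx a b) :
    ∀ᶠ ε : ℝ in 𝓝[>] 0, a 1 + ε * a 0 < b 1 + ε * b 0 := by
  rcases h with h | ⟨h, h'⟩
  · refine Eventually.filter_mono nhdsWithin_le_nhds ?_
    exact ContinuousAt.eventually_lt (f := fun ε : ℝ => a 1 + ε * a 0)
      (g := fun ε : ℝ => b 1 + ε * b 0) (by fun_prop) (by fun_prop) (by simpa using h)
  · filter_upwards [self_mem_nhdsWithin] with ε hε
    have := mul_lt_mul_of_pos_left h' hε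
    linarith

lemma cross {T : Set Plane} (hv : Convex ℝ T) (hi : (interior T).Nonempty) {p q q' : Plane} {ε : ℝ}
    (hq : q ∈ T) (hq' : q' ∈ T) (h : p 1 + ε * p 0 < q 1 + ε * q 0)
    (h' : q' 1 + ε * q' 0 < p 1 + ε * p 0) : ∃ t : ℝ, p + t • pnt 1 (-ε) ∈ interior T := by
  obtain ⟨z, hz⟩ := hi
  have key : ∀ y ∈ T, ∀ a b : ℝ, 0 < a → 0 ≤ b →
      a * (z 1 + ε * z 0) + b * (y 1 + ε * y 0) = (a + b) * (p 1 + ε * p 0) →
      ∃ t : ℝ, p + t • pnt 1 (-ε) ∈ interior T := by
    intro y hy a b ha hb e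
    have hab : 0 < a + b := by linarith
    have := hv.combo_interior_self_mem_interior hz hy (a := a / (a + b)) (b := b / (a + b))
      (by positivity) (by positivity) (by field_simp)
    refine ⟨(a * z 0 + b * y 0) / (a + b) - p 0, ?_⟩
    have e' : p + ((a * z 0 + b * y 0) / (a + b) - p 0) • pnt 1 (-ε) =
        (a / (a + b)) • z + (b / (a + b)) • y := by
      refine pl_ext ?_ ?_ <;>
        simp only [PiLp.add_apply, PiLp.smul_apply, smul_eq_mul, pnt_zero, pnt_one] <;> field_simp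
      · ring
      · linarith
    rwa [e']
  rcases le_total (p 1 + ε * p 0) (z 1 + ε * z 0) with h1 | h1
  · exact key q' hq' _ _ (sub_pos.2 h') (sub_nonneg.2 h1) (by ring)
  · exact key q hq _ _ (sub_pos.2 h) (sub_nonneg.2 h1) (by ring)

lemma hit {A B : Set Plane} (hv : Convex ℝ B) (hi : (interior B).Nonempty) {p : Plane}
    (hA : p ∈ interior A) (hB : p ∈ B) : ¬ Disjoint (interior A) (interior B) := by
  have : p ∈ closure (interior B) := by
    rw [hv.closure_interior_eq_closure_of_nonempty_interior hi]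
    exact subset_closure hB
  exact not_disjoint_iff_nonempty_inter.2 (mem_closure_iff.1 this _ isOpen_interior hA)

lemma ray {A B : Set Plane} (hv : Convex ℝ B) {p d : Plane} {s t : ℝ} (hB : p ∈ B) (ht : 0 ≤ t)
    (hts : t ≤ s) (h1 : p + t • d ∈ interior A) (h2 : p + s • d ∈ interior B) :
    ¬ Disjoint (interior A) (interior B) := by
  rcases ht.eq_or_lt with rfl | ht
  · exact hit hv ⟨_, h2⟩ (by simpa using h1) hB
  have hs : 0 < s := ht.trans_le hts
  have := hv.combo_interior_self_mem_interior h2 hB (a := t / s) (b := 1 - t / s) (by positivity)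
    (by rw [sub_nonneg, div_le_one hs]; exact hts) (by ring)
  have e : (t / s) • (p + s • d) + (1 - t / s) • p = p + t • d := by
    rw [smul_add, smul_smul, div_mul_cancel₀ _ hs.ne']
    module
  rw [e] at this
  exact not_disjoint_iff.2 ⟨_, h1, this⟩

/-- The point is the top or the bottom of the set. -/
def TB (T : Set Plane) (p : Plane) : Prop := (∀ q ∈ T, ¬ Lx p q) ∨ ∀ q ∈ T, ¬ Lx q p

lemma two {T : ℕ → Set Plane} {l : ℕ → ℝ}
    (hd : Pairwise fun m n => Disjoint (interior (T m)) (interior (T n))) {p : Plane} (N : Finset ℕ)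
    (hN : ∀ n ∈ N, Nice (T n) (l n) ∧ p ∈ T n ∧ ¬ TB (T n) p) : N.card ≤ 2 := by
  classical
  have h1 : ∀ n ∈ N, ∀ᶠ ε : ℝ in 𝓝[>] 0, ∃ t : ℝ, p + t • pnt 1 (-ε) ∈ interior (T n) := by
    intro n hn
    obtain ⟨h1, -, h2⟩ := hN n hn
    simp only [TB, not_or, not_forall, not_not] at h2
    obtain ⟨⟨q, hq, h3⟩, q', hq', h4⟩ := h2
    filter_upwards [h3.ev, h4.ev] with ε h5 h6
    exact cross h1.cvx h1.int hq hq' h5 h6
  obtain ⟨ε, h2⟩ := ((eventually_all_finset N).2 h1).exists
  choose! t ht using h2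
  refine (Finset.card_le_card_of_injOn (t := Finset.univ) (fun n => decide (0 ≤ t n))
    (fun _ _ => Finset.mem_univ _) fun m hm n hn h => ?_).trans (by simp)
  by_contra hmn
  have hm' := hN m hm
  have hn' := hN n hn
  simp only [decide_eq_decide] at h
  by_cases h0 : 0 ≤ t m
  · rcases le_total (t m) (t n) with h3 | h3
    · exact ray hn'.1.cvx hn'.2.1 h0 h3 (ht m hm) (ht n hn) (hd hmn)
    · exact ray hm'.1.cvx hm'.2.1 (h.1 h0) h3 (ht n hn) (ht m hm) (hd hmn).symm
  · have h0' : ¬ 0 ≤ t n := fun h' => h0 (h.2 h')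
    have k : ∀ n ∈ N, p + (-t n) • (-pnt 1 (-ε)) ∈ interior (T n) := fun n hn => by
      simpa using ht n hn
    rcases le_total (-t m) (-t n) with h3 | h3
    · exact ray hn'.1.cvx hn'.2.1 (by linarith) h3 (k m hm) (k n hn) (hd hmn)
    · exact ray hm'.1.cvx hm'.2.1 (by linarith) h3 (k n hn) (k m hm) (hd hmn).symm

lemma not_mid {T : Set Plane} (hv : Convex ℝ T) {p w : Plane} (hp : p ∈ T.extremePoints ℝ)
    (hw : w ≠ 0) (h1 : p + w ∈ T) (h2 : p - w ∈ T) : False :=
  not_combo hv hp h1 h2 h1 (by simpa using hw) (by simpa using hw) (by simpa using hw)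
    (α := 1) (β := 1) (γ := 0) one_pos.le one_pos.le le_rfl (by norm_num)
    (by simp only [PiLp.add_apply, PiLp.sub_apply]; ring)
    (by simp only [PiLp.add_apply, PiLp.sub_apply]; ring)

lemma three {A B : Set Plane} {a b : ℝ} (hA : Nice A a) (hB : Nice B b) {p : Plane}
    (hp : p ∈ A.extremePoints ℝ) (hd : A = B ∨ Disjoint (interior B) (interior A))
    (hU : A ∪ B ∈ 𝓝 p) : False := by
  rcases hd with rfl | hd
  · rw [union_self] at hU
    obtain ⟨w, hw⟩ := exists_ne (0 : Plane)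
    obtain ⟨ε, h0, h1, h2⟩ := exists_eps hU w
    exact not_mid hA.cvx hp (smul_ne_zero h0.ne' hw) h1 h2
  obtain ⟨f, hf⟩ := geometric_hahn_banach_open_point hB.cvx.interior isOpen_interior
    fun h => hit hA.cvx hA.int h hp.1 hd
  have hfB : ∀ x ∈ B, f x ≤ f p := by
    intro x hx
    have : x ∈ closure (interior B) := by
      rw [hB.cvx.closure_interior_eq_closure_of_nonempty_interior hB.int]
      exact subset_closure hx
    exact closure_minimal (t := {x | f x ≤ f p}) (fun y hy => (hf y hy).le)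
      (isClosed_le f.continuous continuous_const) this
  obtain ⟨z, hz⟩ := hB.int
  obtain ⟨w, hw, hw0⟩ := (Submodule.ne_bot_iff _).1
    (LinearMap.ker_ne_bot_of_finrank_lt (f := (f : Plane →ₗ[ℝ] ℝ)) (by simp))
  have hw' : f w = 0 := hw
  obtain ⟨O, hO, hOo, hpO⟩ := _root_.mem_nhds_iff.1 hU
  have key : ∀ y ∈ O, f y = f p → y ∈ A := by
    intro y hy e
    have ht : Tendsto (fun δ : ℝ => y + δ • (p - z)) (𝓝[>] 0) (𝓝 y) := by
      have : Continuous fun δ : ℝ => y + δ • (p - z) := by fun_prop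
      simpa using (this.tendsto 0).mono_left nhdsWithin_le_nhds
    refine hA.cpt.isClosed.mem_of_tendsto ht ?_
    filter_upwards [ht.eventually (hOo.mem_nhds hy), self_mem_nhdsWithin] with δ h1 h2
    refine (hO h1).resolve_right fun h3 => ?_
    have h4 := hfB _ h3
    have h5 := mul_pos (show 0 < δ from h2) (sub_pos.2 (hf z hz))
    simp only [map_add, map_smul, map_sub, smul_eq_mul, e] at h4
    linarith
  obtain ⟨ε, h0, h1, h2⟩ := exists_eps (hOo.mem_nhds hpO) w
  exact not_mid hA.cvx hp (smul_ne_zero h0.ne' hw0) (key _ h1 (by simp [hw']))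
    (key _ h2 (by simp [hw']))

open Classical in
lemma loc {T : ℕ → Set Plane} {l : ℕ → ℝ}
    (hd : Pairwise fun m n => Disjoint (interior (T m)) (interior (T n))) {p : Plane} (A : Finset ℕ)
    (hA : ∀ n ∈ A, Nice (T n) (l n) ∧ p ∈ T n) (hU : (⋃ n ∈ A, T n) ∈ 𝓝 p) {n : ℕ} (hn : n ∈ A)
    (hp : p ∈ (T n).extremePoints ℝ) : A.card ≤ 3 * (A.filter fun m => TB (T m) p).card := by
  have h2 := two hd (A.filter fun m => ¬ TB (T m) p) fun m hm => by
    rw [Finset.mem_filter] at hm
    exact ⟨(hA m hm.1).1, (hA m hm.1).2, hm.2⟩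
  have h3 : 3 ≤ A.card := by
    by_contra h
    obtain ⟨m, hm, h4⟩ : ∃ m ∈ A, ∀ k ∈ A, k = n ∨ k = m := by
      have h5 : (A.erase n).card ≤ 1 := by rw [Finset.card_erase_of_mem hn]; omega
      rcases (A.erase n).eq_empty_or_nonempty with h6 | ⟨m, hm⟩
      · refine ⟨n, hn, fun k hk => Or.inl ?_⟩
        by_contra h7
        exact Finset.notMem_empty k (h6 ▸ Finset.mem_erase.2 ⟨h7, hk⟩)
      · refine ⟨m, Finset.mem_of_mem_erase hm, fun k hk => ?_⟩
        by_cases h7 : k = n
        exacts [Or.inl h7, Or.inr (Finset.card_le_one.1 h5 k (Finset.mem_erase.2 ⟨h7, hk⟩) m hm)]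
    refine three (hA n hn).1 (hA m hm).1 hp ?_ (mem_of_superset hU (iUnion₂_subset fun k hk => ?_))
    · by_cases h5 : m = n
      exacts [Or.inl (by rw [h5]), Or.inr (hd h5)]
    · rcases h4 k hk with rfl | rfl
      exacts [subset_union_left, subset_union_right]
  have := Finset.card_filter_add_card_filter_not (s := A) fun m => TB (T m) p
  omega

end Pool.Agent.MP_9020c0_gt.Cvx
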