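import Pool.Agent.MP_9020c0_gt.Cvx.Local

/-! No tiling has all but finitely many tiles convex, fat, with seven corners and of size bounded
from below. -/

set_option autoImplicit false

open Set Metric Filter Topology

namespace Pool.Agent.MP_9020c0_gt.Cvx

lemma dc {α β : Type} (s : Finset α) (t : Finset β) (r : α → β → Prop) [∀ a b, Decidable (r a b)] :
    ∑ a ∈ s, (t.filter fun b => r a b).card = ∑ b ∈ t, (s.filter fun a => r a b).card := by
  simp only [Finset.card_filter]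
  exact Finset.sum_comm

open Classical in
lemma tb_two (T : Set Plane) (P : Finset Plane) :
    (P.filter fun p => p ∈ T ∧ TB T p).card ≤ 2 := by
  have h1 : (P.filter fun p => p ∈ T ∧ ∀ q ∈ T, ¬ Lx p q).card ≤ 1 :=
    Finset.card_le_one.2 fun a ha b hb => by
      rw [Finset.mem_filter] at ha hb
      exact Lx.total (ha.2.2 b hb.2.1) (hb.2.2 a ha.2.1)
  have h2 : (P.filter fun p => p ∈ T ∧ ∀ q ∈ T, ¬ Lx q p).card ≤ 1 :=
    Finset.card_le_one.2 fun a ha b hb => by
      rw [Finset.mem_filter] at ha hb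
      exact Lx.total (hb.2.2 a ha.2.1) (ha.2.2 b hb.2.1)
  refine (Finset.card_le_card (t := _ ∪ _) fun p hp => ?_).trans
    ((Finset.card_union_le _ _).trans (add_le_add h1 h2))
  simp only [Finset.mem_filter, Finset.mem_union, TB] at hp ⊢
  tauto

theorem no_tiling {T : ℕ → Set Plane} {l : ℕ → ℝ} {D₀ : ℝ} (hD : 0 < D₀)
    (hd : Pairwise fun m n => Disjoint (interior (T m)) (interior (T n)))
    (cov : (⋃ n, T n) = univ) (bdd : ∀ n, Bornology.IsBounded (T n)) {F : Set ℕ} (hF : F.Finite)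
    (hG : ∀ n ∉ F, Nice (T n) (l n) ∧ D₀ ≤ l n) : False := by
  classical
  have bd : ∀ S : Set ℕ, S.Finite → ∃ R : ℝ, 0 < R ∧ ∀ n ∈ S, ∀ x ∈ T n, ‖x‖ ≤ R := by
    intro S hS
    obtain ⟨R, h0, h⟩ := ((Bornology.isBounded_biUnion hS).2 fun n _ => bdd n).exists_pos_norm_le
    exact ⟨R, h0, fun n hn x hx => h x (mem_biUnion hn hx)⟩
  obtain ⟨R₀, r0, hR₀⟩ := bd F hF
  have fin : ∀ R : ℝ, {n | Nice (T n) (l n) ∧ D₀ ≤ l n ∧ ∃ x ∈ T n, ‖x‖ ≤ R}.Finite := fun R =>
    (pack_finite (l := l) hd hD (le_max_right R 0)).subset fun n ⟨h1, h2, x, h3, h4⟩ =>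
      ⟨h1, h2, x, h3, h4.trans (le_max_left _ _)⟩
  let M : ℝ → Finset ℕ := fun R => (fin R).toFinset
  have hM : ∀ R n, n ∈ M R ↔ Nice (T n) (l n) ∧ D₀ ≤ l n ∧ ∃ x ∈ T n, ‖x‖ ≤ R := fun R n =>
    (fin R).mem_toFinset
  let I : ℝ → Finset ℕ := fun R => (M R).filter fun n => ∀ x ∈ T n, R₀ < ‖x‖ ∧ ‖x‖ ≤ R
  have count : ∀ R, 7 * (I R).card ≤ 6 * (M R).card := by
    intro R
    have h7 : ∀ n ∈ I R, ∃ X : Finset Plane, X.card = 7 ∧ (X : Set Plane) ⊆ (T n).extremePoints ℝ :=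
      fun n hn => ((hM R n).1 (Finset.mem_filter.1 hn).1).1.seven
    choose! X hX hX' using h7
    let P := (I R).biUnion X
    have hP : ∀ p ∈ P, ((M R).filter fun n => p ∈ T n).card ≤
        3 * ((M R).filter fun n => p ∈ T n ∧ TB (T n) p).card := by
      intro p hp
      obtain ⟨n, hn, hpn⟩ := Finset.mem_biUnion.1 hp
      have he := hX' n hn hpn
      rw [Finset.mem_filter] at hn
      obtain ⟨p1, p2⟩ := hn.2 p he.1
      rw [← Finset.filter_filter]
      refine loc (l := l) hd _ (fun m hm => ?_) ?_ (Finset.mem_filter.2 ⟨hn.1, he.1⟩) he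
      · rw [Finset.mem_filter] at hm
        exact ⟨((hM R m).1 hm.1).1, hm.2⟩
      have hC : IsClosed (⋃ m ∈ (M (R + 1)).filter fun m => p ∉ T m, T m) :=
        isClosed_biUnion_finset fun m hm => ((hM _ m).1 (Finset.mem_filter.1 hm).1).1.cpt.isClosed
      have h1 : (⋃ m ∈ (M (R + 1)).filter fun m => p ∉ T m, T m)ᶜ ∈ 𝓝 p :=
        hC.isOpen_compl.mem_nhds (by simp)
      have h2 : ∀ᶠ x in 𝓝 p, R₀ < ‖x‖ :=
        ContinuousAt.eventually_lt continuousAt_const continuous_norm.continuousAt p1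
      have h3 : ∀ᶠ x in 𝓝 p, ‖x‖ < R + 1 :=
        ContinuousAt.eventually_lt continuous_norm.continuousAt continuousAt_const (by linarith)
      filter_upwards [h1, h2, h3] with x x1 x2 x3
      obtain ⟨m, hm⟩ := mem_iUnion.1 (cov ▸ mem_univ x)
      have g := hG m fun h => (hR₀ m h x hm).not_gt x2
      have hpm : p ∈ T m := by
        by_contra h
        exact x1 (mem_biUnion (Finset.mem_coe.2 (Finset.mem_filter.2
          ⟨(hM _ m).2 ⟨g.1, g.2, x, hm, x3.le⟩, h⟩)) hm)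
      exact mem_biUnion (Finset.mem_coe.2 (Finset.mem_filter.2
        ⟨(hM _ m).2 ⟨g.1, g.2, p, hpm, p2⟩, hpm⟩)) hm
    calc 7 * (I R).card = ∑ _n ∈ I R, 7 := by simp [mul_comm]
      _ ≤ ∑ n ∈ I R, (P.filter fun p => p ∈ T n).card := by
          refine Finset.sum_le_sum fun n hn => (hX n hn).ge.trans (Finset.card_le_card ?_)
          exact fun p hp => Finset.mem_filter.2 ⟨Finset.mem_biUnion.2 ⟨n, hn, hp⟩, (hX' n hn hp).1⟩
      _ ≤ ∑ n ∈ M R, (P.filter fun p => p ∈ T n).card :=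
          Finset.sum_le_sum_of_subset (Finset.filter_subset _ _)
      _ = ∑ p ∈ P, ((M R).filter fun n => p ∈ T n).card := dc _ _ fun n p => p ∈ T n
      _ ≤ ∑ p ∈ P, 3 * ((M R).filter fun n => p ∈ T n ∧ TB (T n) p).card := Finset.sum_le_sum hP
      _ = 3 * ∑ n ∈ M R, (P.filter fun p => p ∈ T n ∧ TB (T n) p).card := by
          rw [← Finset.mul_sum]
          congr 1
          exact (dc (M R) P fun n p => p ∈ T n ∧ TB (T n) p).symm
      _ ≤ 3 * ∑ _n ∈ M R, 2 := by
          gcongr with n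
          simpa only [Finset.filter_congr_decidable] using tb_two (T n) P
      _ = 6 * (M R).card := by simp; ring
  have step : ∀ R, 0 < R → ((M R).card : ℝ) ≤ (I (21 / 20 * R)).card + ((M R₀).card + 24696) := by
    intro R hR
    let B := (M R).filter fun n => R / 20 ≤ l n
    have hB : (B.card : ℝ) ≤ 24696 := by
      have := pack (l := l) hd (r := R / 20) (by positivity) hR.le B fun n hn => by
        rw [Finset.mem_filter, hM] at hn
        exact ⟨hn.1.1, hn.2, hn.1.2.2⟩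
      have h2 : 0 < (R / 20) ^ 2 := by positivity
      refine le_of_mul_le_mul_right (this.trans (le_of_eq ?_)) h2
      ring
    have sub : M R ⊆ I (21 / 20 * R) ∪ (M R₀ ∪ B) := by
      intro n hn
      obtain ⟨h1, h2, x, hx, h3⟩ := (hM R n).1 hn
      simp only [Finset.mem_union]
      by_cases c1 : ∃ y ∈ T n, ‖y‖ ≤ R₀
      · exact Or.inr (Or.inl ((hM _ n).2 ⟨h1, h2, c1⟩))
      by_cases c2 : R / 20 ≤ l n
      · exact Or.inr (Or.inr (Finset.mem_filter.2 ⟨hn, c2⟩))
      push Not at c1 c2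
      refine Or.inl (Finset.mem_filter.2 ⟨(hM _ n).2 ⟨h1, h2, x, hx, by linarith⟩,
        fun y hy => ⟨c1 y hy, ?_⟩⟩)
      have := h1.dist y hy x hx
      have := norm_le_norm_add_norm_sub' y x
      rw [← dist_eq_norm] at this
      linarith
    have := (Finset.card_le_card sub).trans ((Finset.card_union_le _ _).trans
      (Nat.add_le_add_left (Finset.card_union_le _ _) _))
    have : ((M R).card : ℝ) ≤ (I (21 / 20 * R)).card + ((M R₀).card + B.card) := by
      exact_mod_cast this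
    linarith
  set K : ℝ := (M R₀).card + 24696 with hK
  obtain ⟨N, hN⟩ := exists_nat_ge (6 * K + 1)
  obtain ⟨S, hS, hS'⟩ := (hF.union (fin R₀)).infinite_compl.exists_subset_card_eq N
  obtain ⟨R₁, r1, hR₁⟩ := bd S S.finite_toSet
  have start : N ≤ (I R₁).card := by
    rw [← hS']
    refine Finset.card_le_card fun n hn => ?_
    have h1 := hS hn
    simp only [mem_compl_iff, mem_union, not_or, mem_ofPred_eq] at h1
    have g := hG n h1.1
    obtain ⟨x, hx⟩ := g.1.int
    refine Finset.mem_filter.2 ⟨(hM _ n).2 ⟨g.1, g.2, x, interior_subset hx,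
      hR₁ n hn x (interior_subset hx)⟩, fun y hy => ⟨?_, hR₁ n hn y hy⟩⟩
    by_contra h
    exact h1.2 ⟨g.1, g.2, y, hy, not_lt.1 h⟩
  have grow : ∀ j : ℕ, (7 / 6 : ℝ) ^ j ≤ (I ((21 / 20) ^ j * R₁)).card - 6 * K := by
    intro j
    induction j with
    | zero =>
      have : (N : ℝ) ≤ (I R₁).card := by exact_mod_cast start
      simp only [pow_zero, one_mul]
      linarith
    | succ j ih =>
      have h1 := step ((21 / 20) ^ j * R₁) (by positivity)
      have h2 : (7 : ℝ) * (I ((21 / 20) ^ j * R₁)).card ≤ 6 * (M ((21 / 20) ^ j * R₁)).card := by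
        exact_mod_cast count _
      rw [pow_succ, pow_succ', mul_assoc]
      linarith
  obtain ⟨j, hj⟩ := pow_unbounded_of_one_lt (56 * (R₁ + D₀) ^ 2 / D₀ ^ 2)
    (show (1 : ℝ) < 7 / 6 / (21 / 20) ^ 2 by norm_num)
  have h1 := pack (l := l) hd hD (R := (21 / 20) ^ j * R₁) (by positivity)
    (I ((21 / 20) ^ j * R₁)) fun n hn => (hM _ n).1 (Finset.mem_filter.1 hn).1
  have h2 : (1 : ℝ) ≤ (21 / 20) ^ j := one_le_pow₀ (by norm_num)
  have h3 : ((21 / 20) ^ j * R₁ + D₀) ^ 2 ≤ ((21 / 20) ^ j * (R₁ + D₀)) ^ 2 := by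
    gcongr
    nlinarith
  have h4 := grow j
  have k0 : 0 ≤ K := by positivity
  rw [div_pow, div_lt_div_iff₀ (by positivity) (by positivity), ← pow_mul, mul_comm 2 j,
    pow_mul] at hj
  have h5 : (7 / 6 : ℝ) ^ j * D₀ ^ 2 ≤ (I ((21 / 20) ^ j * R₁)).card * D₀ ^ 2 := by
    gcongr
    linarith
  rw [mul_pow] at h3
  linarith

theorem convex_case {D₀ : ℝ} (hD : 0 < D₀) {T : ℕ → Set Plane} (hT : IsTiling T)
    (hd : ∀ n, D₀ ≤ diam (T n)) (hc : {n | ¬ Convex ℝ (T n)}.Finite) :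
    {n | ENNReal.ofReal (8 * √3) ≤ isoRatio (T n)}.Infinite := by
  intro hf
  refine no_tiling (l := fun n => (MeasureTheory.Measure.hausdorffMeasure 1 (frontier (T n))).toReal)
    hD hT.2.2 hT.2.1 (fun n => (hT.1 n).1) (hc.union hf) fun n hn => ?_
  simp only [mem_union, mem_ofPred_eq, not_or, not_not, not_le] at hn
  obtain ⟨φ⟩ := (hT.1 n).2
  have : CompactSpace (T n) := φ.symm.compactSpace
  have h := nice_of (isCompact_iff_compactSpace.2 this) hn.1 (hD.trans_le (hd n)) hn.2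
  exact ⟨h, (hd n).trans (diam_le_of_forall_dist_le ENNReal.toReal_nonneg h.dist)⟩

end Pool.Agent.MP_9020c0_gt.Cvx
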