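import Pool.Agent.MP_9020c0_gt.Cvx.Poly

/-! Convex tiles of small isoperimetric ratio: they are fat, have seven corners, and few of them
meet a disc. -/

set_option autoImplicit false

open Set Metric MeasureTheory
open scoped ENNReal

namespace Pool.Agent.MP_9020c0_gt.Cvx

lemma edist_le_len {T : Set Plane} (hc : IsCompact T) (hv : Convex ℝ T) {p q : Plane}
    (hp : p ∈ T) (hq : q ∈ T) : ENNReal.ofReal (dist p q) ≤ μH[1] (frontier T) := by
  by_cases hpq : p = q
  · simp [hpq]
  have d0 : 0 < dist p q := dist_pos.2 hpq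
  have d2 := dist_sq p q
  set d := dist p q with hd
  let π : Plane → ℝ := fun x => ((q 0 - p 0) * (x 0 - p 0) + (q 1 - p 1) * (x 1 - p 1)) / d
  have hL : LipschitzWith 1 π := by
    refine LipschitzWith.of_dist_le_mul fun x y => ?_
    have e : π x - π y = ((q 0 - p 0) * (x 0 - y 0) + (q 1 - p 1) * (x 1 - y 1)) / d := by
      simp only [π]; ring
    rw [Real.dist_eq, e, abs_div, abs_of_pos d0, div_le_iff₀ d0, NNReal.coe_one, one_mul]
    refine abs_le_of_sq_le_sq ?_ (by positivity)
    rw [mul_pow, dist_sq, d2]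
    nlinarith [sq_nonneg ((q 0 - p 0) * (x 1 - y 1) - (q 1 - p 1) * (x 0 - y 0))]
  have sub : Icc 0 d ⊆ π '' frontier T := by
    intro s hs
    have hK : IsCompact (T ∩ {x | π x = s}) :=
      hc.inter_right (isClosed_eq hL.continuous continuous_const)
    have hne : (T ∩ {x | π x = s}).Nonempty := by
      refine ⟨(1 - s / d) • p + (s / d) • q, hv hp hq ?_ (div_nonneg hs.1 d0.le) (by ring), ?_⟩
      · rw [sub_nonneg, div_le_one d0]; exact hs.2
      · simp only [π, mem_ofPred_eq, PiLp.add_apply, PiLp.smul_apply, smul_eq_mul]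
        field_simp
        linear_combination (-s) * d2
    obtain ⟨y, hy, hmax⟩ := hK.exists_isMaxOn (f := fun x => D p q x) hne (by unfold D; fun_prop)
    refine ⟨y, ⟨subset_closure hy.1, fun hi => ?_⟩, hy.2⟩
    obtain ⟨ε, h0, h1, -⟩ := exists_eps (mem_interior_iff_mem_nhds.1 hi)
      (pnt (p 1 - q 1) (q 0 - p 0))
    have h2 : D p q _ ≤ D p q y := hmax ⟨h1, by
      have := hy.2
      simp only [π, mem_ofPred_eq, PiLp.add_apply, PiLp.smul_apply, smul_eq_mul, pnt_zero,
        pnt_one] at this ⊢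
      rw [← this]
      ring⟩
    have h3 := mul_pos h0 (sq_pos_of_ne hpq)
    simp only [D, PiLp.add_apply, PiLp.smul_apply, smul_eq_mul, pnt_zero, pnt_one] at h2
    nlinarith
  calc ENNReal.ofReal d = μH[1] (Icc 0 d) := by
        rw [hausdorffMeasure_real, Real.volume_Icc, sub_zero]
    _ ≤ μH[1] (π '' frontier T) := measure_mono sub
    _ ≤ _ := by simpa using hL.hausdorffMeasure_image_le zero_le_one (frontier T)

/-- What is used about a convex tile of small isoperimetric ratio. -/
structure Nice (T : Set Plane) (l : ℝ) : Prop where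
  cpt : IsCompact T
  cvx : Convex ℝ T
  int : (interior T).Nonempty
  dist : ∀ p ∈ T, ∀ q ∈ T, dist p q ≤ l
  vol : ENNReal.ofReal (l ^ 2 / 14) ≤ volume T
  seven : ∃ X : Finset Plane, X.card = 7 ∧ (X : Set Plane) ⊆ T.extremePoints ℝ

lemma vol_interior {T : Set Plane} (hv : Convex ℝ T) (B : Set Plane) :
    volume (T ∩ B) ≤ volume (interior T ∩ B) := by
  have : T ∩ B ⊆ (interior T ∩ B) ∪ frontier T := fun x hx => by
    by_cases h : x ∈ interior T
    exacts [Or.inl ⟨h, hx.2⟩, Or.inr ⟨subset_closure hx.1, h⟩]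
  refine (measure_mono this).trans ((measure_union_le _ _).trans ?_)
  rw [hv.addHaar_frontier volume, add_zero]

lemma nice_of {T : Set Plane} (hc : IsCompact T) (hv : Convex ℝ T) (hD : 0 < diam T)
    (h : isoRatio T < ENNReal.ofReal (8 * √3)) : Nice T (μH[1] (frontier T)).toReal := by
  have h0 : μH[1] (frontier T) ≠ 0 := by
    intro h'
    refine hD.not_ge (diam_le_of_forall_dist_le le_rfl fun p hp q hq => ?_)
    simpa [h'] using (edist_le_len hc hv hp hq)
  rw [isoRatio, ENNReal.div_lt_iff (Or.inr (pow_ne_zero 2 h0)) (Or.inl hc.measure_lt_top.ne)] at h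
  have hf : μH[1] (frontier T) ≠ ⊤ := by
    intro h'
    rw [h'] at h
    simp at h
  have hi : (interior T).Nonempty := by
    rw [nonempty_iff_ne_empty]
    intro h'
    have := vol_interior hv univ
    rw [h', empty_inter, inter_univ, measure_empty, nonpos_iff_eq_zero] at this
    simp [this] at h
  refine ⟨hc, hv, hi, fun p hp q hq => ?_, ?_, ?_⟩
  · exact (ENNReal.ofReal_le_iff_le_toReal hf).1 (edist_le_len hc hv hp hq)
  · have h14 : 8 * √3 ≤ 14 := by
      have : √3 ≤ 1.75 := Real.sqrt_le_iff.2 ⟨by norm_num, by norm_num⟩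
      linarith
    rw [ENNReal.ofReal_div_of_pos (by norm_num), ENNReal.ofReal_pow ENNReal.toReal_nonneg,
      ENNReal.ofReal_toReal hf]
    refine ENNReal.div_le_of_le_mul' (h.le.trans ?_)
    gcongr
  · by_cases hfin : (T.extremePoints ℝ).Finite
    · by_cases h7 : 7 ≤ hfin.toFinset.card
      · obtain ⟨X, h1, h2⟩ := Finset.exists_subset_card_eq h7
        exact ⟨X, h2, fun x hx => hfin.mem_toFinset.1 (h1 hx)⟩
      · exact absurd (hex hc hv hi hfin.toFinset (by simp) (by omega)) h.not_ge
    · obtain ⟨X, h1, h2⟩ := Set.Infinite.exists_subset_card_eq hfin 7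
      exact ⟨X, h2, h1⟩

lemma pack {T : ℕ → Set Plane} {l : ℕ → ℝ}
    (hd : Pairwise fun m n => Disjoint (interior (T m)) (interior (T n))) {R r : ℝ} (hr : 0 < r)
    (hR : 0 ≤ R) (S : Finset ℕ)
    (hS : ∀ n ∈ S, Nice (T n) (l n) ∧ r ≤ l n ∧ ∃ x ∈ T n, ‖x‖ ≤ R) :
    S.card * r ^ 2 ≤ 56 * (R + r) ^ 2 := by
  let B : Set Plane := closedBall 0 (R + r)
  have h1 : ∀ n ∈ S, ENNReal.ofReal (r ^ 2 / 14) ≤ volume (interior (T n) ∩ B) := by
    intro n hn
    obtain ⟨hN, hl, x, hx, hxR⟩ := hS n hn
    have l0 : 0 < l n := hr.trans_le hl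
    have sub : AffineMap.homothety x (r / l n) '' T n ⊆ T n ∩ B := by
      rintro _ ⟨y, hy, rfl⟩
      have e : AffineMap.homothety x (r / l n) y = x + (r / l n) • (y - x) := by
        rw [AffineMap.homothety_apply, vsub_eq_sub, vadd_eq_add, add_comm]
      rw [e]
      refine ⟨hN.cvx.add_smul_sub_mem hx hy ⟨by positivity, (div_le_one l0).2 hl⟩, ?_⟩
      rw [mem_closedBall_zero_iff]
      refine (norm_add_le _ _).trans (add_le_add hxR ?_)
      rw [norm_smul, Real.norm_of_nonneg (by positivity), ← dist_eq_norm, div_mul_eq_mul_div,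
        div_le_iff₀ l0]
      exact mul_le_mul_of_nonneg_left (hN.dist y hy x hx) hr.le
    refine le_trans ?_ ((measure_mono sub).trans (vol_interior hN.cvx B))
    rw [Measure.addHaar_image_homothety, finrank_euclideanSpace_fin, abs_of_nonneg (by positivity)]
    refine le_trans (le_of_eq ?_) (mul_le_mul_right hN.vol _)
    rw [← ENNReal.ofReal_mul (by positivity)]
    congr 1
    field_simp
  have h2 : ∑ n ∈ S, volume (interior (T n) ∩ B) ≤ volume B := by
    rw [← measure_biUnion_finset]
    · exact measure_mono (iUnion₂_subset fun n _ => inter_subset_right)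
    · exact fun m _ n _ h => (hd h).mono inter_subset_left inter_subset_left
    · exact fun n _ => isOpen_interior.measurableSet.inter measurableSet_closedBall
  have h3 := (Finset.sum_le_sum h1).trans h2
  rw [Finset.sum_const, nsmul_eq_mul, EuclideanSpace.volume_closedBall_fin_two,
    ← ENNReal.ofReal_pow (by positivity), ← ENNReal.ofReal_mul (by positivity),
    ← ENNReal.ofReal_natCast, ← ENNReal.ofReal_mul (by positivity),
    ENNReal.ofReal_le_ofReal_iff (by positivity)] at h3
  nlinarith [Real.pi_le_four, sq_nonneg (R + r)]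

lemma pack_finite {T : ℕ → Set Plane} {l : ℕ → ℝ}
    (hd : Pairwise fun m n => Disjoint (interior (T m)) (interior (T n))) {R r : ℝ} (hr : 0 < r)
    (hR : 0 ≤ R) : {n | Nice (T n) (l n) ∧ r ≤ l n ∧ ∃ x ∈ T n, ‖x‖ ≤ R}.Finite := by
  by_contra h
  obtain ⟨N, hN⟩ := exists_nat_gt (56 * (R + r) ^ 2 / r ^ 2)
  obtain ⟨S, h1, h2⟩ := Set.Infinite.exists_subset_card_eq h N
  have := pack hd hr hR S fun n hn => h1 hn
  rw [div_lt_iff₀ (by positivity), ← h2] at hN
  linarith

end Pool.Agent.MP_9020c0_gt.Cvx
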