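import Pool.Agent.MP_9020c0_gt.Cvx.Tri

/-! A convex body in the plane with at most six extreme points has isoperimetric ratio at least
that of the regular hexagon. -/

set_option autoImplicit false

open Set Metric MeasureTheory
open scoped ENNReal

namespace Pool.Agent.MP_9020c0_gt.Cvx

/-- The extreme points in counterclockwise order. -/
lemma order {T : Set Plane} (hv : Convex ℝ T) (V : Finset Plane) (hV : T.extremePoints ℝ = V)
    {p : Plane} (hp : p ∈ V) : ∃ z : ℕ → Plane, z 0 = p ∧ (∀ j, V.card ≤ j → z j = p) ∧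
      (∀ j, z j ∈ V) ∧ (∀ v ∈ V, ∃ j < V.card, z j = v) ∧
      ∀ i j l, i < j → j < l → l < V.card → 0 < D (z i) (z j) (z l) := by
  classical
  have ex : ∀ v ∈ V, v ∈ T.extremePoints ℝ := fun v h => by rw [hV]; exact h
  let W := {x // x ∈ V.erase p}
  have w1 : ∀ a : W, a.1 ∈ T.extremePoints ℝ := fun a => ex _ (Finset.mem_erase.1 a.2).2
  have w2 : ∀ a : W, a.1 ≠ p := fun a => (Finset.mem_erase.1 a.2).1
  let r : W → W → Prop := fun a b => 0 < D p a.1 b.1
  have tr : ∀ a b c : W, r a b → r b c → r a c := by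
    intro a b c h1 h2
    by_contra h3
    refine not_in_tri hv (ex p hp) (w1 a).1 (w1 b).1 (w1 c).1 (w2 a) (w2 b) (w2 c) h2.le ?_ h1.le ?_
    all_goals
      simp only [r, D, not_lt] at h1 h2 h3 ⊢
      linarith
  have sto : IsStrictTotalOrder W r :=
    { trichotomous := by
        intro a b h1 h2
        by_contra h3
        refine D_ne hv (ex p hp) (w1 a) (w1 b) (w2 a).symm (fun h => h3 (Subtype.ext h))
          (w2 b).symm ?_
        simp only [r, D, not_lt] at h1 h2 ⊢
        linarith
      irrefl := fun a => by simp only [r, D, not_lt]; linarith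
      trans := tr }
  let _ : LinearOrder W := linearOrderOfSTO r
  have hc : Fintype.card W = V.card - 1 := by
    simp only [W, Fintype.card_coe, Finset.card_erase_of_mem hp]
  let e := monoEquivOfFin W hc
  have he : ∀ i j, i < j → r (e i) (e j) := fun i j h => e.strictMono h
  have h3 : ∀ a b c : W, r a b → r b c → 0 < D a.1 b.1 c.1 := by
    intro a b c h1 h2
    have h4 := tr a b c h1 h2
    by_contra h5
    refine not_in_tri hv (w1 b) (ex p hp).1 (w1 a).1 (w1 c).1 (w2 b).symm ?_ ?_ ?_ ?_ ?_ ?_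
    · intro h
      simp only [r, h, D] at h1
      linarith
    · intro h
      simp only [r, h, D] at h2
      linarith
    all_goals
      simp only [r, D, not_lt] at h1 h2 h4 h5 ⊢
      linarith
  refine ⟨fun j => if h : 1 ≤ j ∧ j < V.card then (e ⟨j - 1, by omega⟩).1 else p, by simp,
    fun j hj => dif_neg (by omega), fun j => ?_, fun v h => ?_, fun i j l hij hjl hl => ?_⟩
  · dsimp only
    split_ifs
    exacts [(Finset.mem_erase.1 (e _).2).2, hp]
  · by_cases hvp : v = p
    · exact ⟨0, Finset.card_pos.2 ⟨p, hp⟩, by simp [hvp]⟩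
    · obtain ⟨i, hi⟩ := e.surjective ⟨v, Finset.mem_erase.2 ⟨hvp, h⟩⟩
      have := i.2
      refine ⟨i.1 + 1, by omega, ?_⟩
      dsimp only
      rw [dif_pos (by omega)]
      simp [hi]
  · dsimp only
    rw [dif_pos (show 1 ≤ j ∧ j < V.card by omega), dif_pos (show 1 ≤ l ∧ l < V.card by omega)]
    have hr := he ⟨j - 1, by omega⟩ ⟨l - 1, by omega⟩ (by simp only [Fin.mk_lt_mk]; omega)
    split_ifs with h
    · exact h3 _ _ _ (he _ _ (by simp only [Fin.mk_lt_mk]; omega)) hr
    · exact hr

lemma ivt (g : ℕ → ℝ) {a b : ℕ} (hab : a < b) (ha : 0 ≤ g a) (hb : g b ≤ 0) :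
    ∃ j, a ≤ j ∧ j < b ∧ 0 ≤ g j ∧ g (j + 1) ≤ 0 := by
  induction b with
  | zero => omega
  | succ n ih =>
    rcases le_total 0 (g n) with h | h
    · exact ⟨n, by omega, by omega, h, hb⟩
    · rcases Nat.lt_succ_iff_lt_or_eq.1 hab with h1 | h1
      · obtain ⟨j, h2, h3, h4⟩ := ih h1 h
        exact ⟨j, h2, by omega, h4⟩
      · exact ⟨n, by omega, by omega, h1 ▸ ha, hb⟩

theorem hex {T : Set Plane} (hc : IsCompact T) (hv : Convex ℝ T) (hi : (interior T).Nonempty)
    (V : Finset Plane) (hV : T.extremePoints ℝ = V) (h6 : V.card ≤ 6) :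
    ENNReal.ofReal (8 * √3) * volume T ≤ μH[1] (frontier T) ^ 2 := by
  classical
  have hT : T = convexHull ℝ (V : Set Plane) := by
    rw [← closure_convexHull_extremePoints hc hv, hV, (V.finite_toSet.isClosed_convexHull ℝ).closure_eq]
  have half : ∀ a b, (∀ v ∈ V, 0 ≤ D a b v) → ∀ x ∈ T, 0 ≤ D a b x := fun a b h x hx =>
    convexHull_min (t := {x | 0 ≤ D a b x}) h (convex_D a b) (hT ▸ hx)
  have hVT : ∀ v ∈ V, v ∈ T := fun v h => hT ▸ subset_convexHull ℝ _ h
  obtain ⟨x₀, hx₀⟩ := hi
  obtain ⟨p, hp⟩ : V.Nonempty := by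
    rw [Finset.nonempty_iff_ne_empty]
    rintro rfl
    have := interior_subset hx₀
    simp [hT] at this
  obtain ⟨z, z0, zp, zV, zs, zD⟩ := order hv V hV hp
  set k := V.card with hk
  have k3 : 3 ≤ k := by
    by_contra h
    obtain ⟨b, hb, hb'⟩ : ∃ b, p ≠ b ∧ ∀ v ∈ V, v = p ∨ v = b := by
      by_cases h1 : z 1 = p
      · obtain ⟨b, hb⟩ := exists_ne p
        refine ⟨b, hb.symm, fun v hv => Or.inl ?_⟩
        obtain ⟨j, hj, rfl⟩ := zs v hv
        have : j = 0 ∨ j = 1 := by omega
        rcases this with rfl | rfl <;> assumption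
      · refine ⟨z 1, Ne.symm h1, fun v hv => ?_⟩
        obtain ⟨j, hj, rfl⟩ := zs v hv
        have : j = 0 ∨ j = 1 := by omega
        rcases this with rfl | rfl
        exacts [Or.inl z0, Or.inr rfl]
    have h1 := half p b fun v hv => by rcases hb' v hv with rfl | rfl <;> simp [D, mul_comm]
    have h2 := half b p fun v hv => by rcases hb' v hv with rfl | rfl <;> simp [D, mul_comm]
    refine not_interior hb h1 ?_ hx₀
    have h3 := h1 _ (interior_subset hx₀)
    have h4 := h2 _ (interior_subset hx₀)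
    simp only [D] at h3 h4 ⊢
    linarith
  have rot : ∀ a b c, D a b c = D b c a := fun a b c => by simp only [D]; ring
  have pos : ∀ j m, j < k → m < k → m ≠ j → m ≠ j + 1 → (j + 1 = k → m ≠ 0) →
      0 < D (z j) (z (j + 1)) (z m) := by
    intro j m hj hm h1 h2 h3
    rcases Nat.lt_or_ge (j + 1) k with h | h
    · rcases Nat.lt_or_ge m j with h4 | h4
      · rw [← rot]; exact zD _ _ _ h4 (by omega) h
      · exact zD _ _ _ (by omega) (by omega) hm
    · rw [zp _ h, ← z0, rot]
      exact zD _ _ _ (by omega) (by omega) hj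
  have edge : ∀ j, ∀ x ∈ T, 0 ≤ D (z j) (z (j + 1)) x := by
    intro j
    refine half _ _ fun v hv => ?_
    obtain ⟨m, hm, rfl⟩ := zs v hv
    rcases Nat.lt_or_ge j k with hj | hj
    · by_cases h1 : m = j
      · simp [h1, D]
      by_cases h2 : m = j + 1
      · simp [h2, D, mul_comm]
      by_cases h3 : j + 1 = k ∧ m = 0
      · rw [h3.2, z0, zp (j + 1) h3.1.ge]; simp [D, mul_comm]
      exact (pos j m hj hm h1 h2 fun h h' => h3 ⟨h, h'⟩).le
    · rw [zp j hj, zp (j + 1) (by omega)]; simp [D]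
  have fan : ∀ j, 0 ≤ D p (z j) (z (j + 1)) := fun j => by
    rw [rot]; exact edge j p (hVT p hp)
  have area : volume T ≤ ENNReal.ofReal (S (z 0) (z 1) (z 2) (z 3) (z 4) (z 5) / 2) := by
    have cov : T ⊆ ⋃ j ∈ Finset.Ico 1 (k - 1), Tri p (z j) (z (j + 1)) := by
      intro x hx
      obtain ⟨j, h1, h2, h3, h4⟩ := ivt (fun j => D p (z j) x) (a := 1) (b := k - 1) (by omega)
        (by simpa [z0] using edge 0 x hx) (by
          have := edge (k - 1) x hx
          rw [zp (k - 1 + 1) (by omega)] at this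
          simp only [D] at this ⊢
          linarith)
      refine mem_biUnion (Finset.mem_Ico.2 ⟨h1, h2⟩) ⟨h3, edge j x hx, ?_⟩
      simp only [D] at h4 ⊢
      linarith
    calc volume T ≤ ∑ j ∈ Finset.Ico 1 (k - 1), volume (Tri p (z j) (z (j + 1))) :=
          (measure_mono cov).trans (measure_biUnion_finset_le _ _)
      _ ≤ ∑ j ∈ Finset.Ico 1 (k - 1), ENNReal.ofReal (D p (z j) (z (j + 1)) / 2) := by
          refine Finset.sum_le_sum fun j hj => vol_tri ?_
          rw [Finset.mem_Ico] at hj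
          rw [← z0]
          exact zD _ _ _ (by omega) (by omega) (by omega)
      _ ≤ ∑ j ∈ Finset.Ico 1 5, ENNReal.ofReal (D p (z j) (z (j + 1)) / 2) :=
          Finset.sum_le_sum_of_subset (Finset.Ico_subset_Ico le_rfl (by omega))
      _ = _ := by
          rw [← ENNReal.ofReal_sum_of_nonneg fun j _ => by have := fan j; positivity]
          congr 1
          simp only [Finset.sum_Ico_eq_sum_range, Finset.sum_range_succ, S, z0]
          norm_num
          ring
  have per : ENNReal.ofReal (Pm (z 0) (z 1) (z 2) (z 3) (z 4) (z 5)) ≤ μH[1] (frontier T) := by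
    let E : ℕ → Set Plane := fun j => segment ℝ (z j) (z (j + 1)) \ V
    have hE : ∀ j, ∀ x ∈ E j, j < k ∧ z j ≠ z (j + 1) ∧
        ∃ s t : ℝ, 0 < s ∧ 0 < t ∧ s + t = 1 ∧ s • z j + t • z (j + 1) = x := by
      rintro j x ⟨h1, h2⟩
      have h3 : z j ≠ z (j + 1) := by
        intro h
        rw [← h, segment_same] at h1
        exact h2 (h1 ▸ zV j)
      refine ⟨?_, h3, ?_⟩
      · by_contra h
        exact h3 (by rw [zp j (by omega), zp (j + 1) (by omega)])
      · exact mem_openSegment_of_ne_left_right (fun h => h2 (h ▸ zV j))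
          (fun h => h2 (h ▸ zV (j + 1))) h1
    have hD : ∀ j, ∀ x ∈ E j, D (z j) (z (j + 1)) x = 0 := by
      intro j x hx
      obtain ⟨-, -, s, t, -, -, h, rfl⟩ := hE j x hx
      rw [D_combo _ _ _ _ h]
      simp [D, mul_comm]
    have sub : (⋃ j ∈ Finset.range 6, E j) ⊆ frontier T := by
      refine iUnion₂_subset fun j _ x hx => ⟨subset_closure ?_, ?_⟩
      · exact hv.segment_subset (hVT _ (zV _)) (hVT _ (zV _)) hx.1
      · exact not_interior (hE j x hx).2.1 (edge j) (hD j x hx)
    have lt : ∀ i j, i < j → Disjoint (E i) (E j) := by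
      intro i j hij
      rw [Set.disjoint_left]
      intro x hi hj
      obtain ⟨-, -, s, t, hs, ht, h, rfl⟩ := hE i x hi
      have h1 := hD j _ hj
      have hj' := (hE j _ hj).1
      rw [D_combo _ _ _ _ h] at h1
      have h2 := mul_nonneg hs.le (edge j _ (hVT _ (zV i)))
      have h3 := mul_nonneg ht.le (edge j _ (hVT _ (zV (i + 1))))
      by_cases h4 : j + 1 = k ∧ i = 0
      · have := mul_pos ht (pos j (i + 1) hj' (by omega) (by omega) (by omega) (by omega))
        linarith
      · have := mul_pos hs (pos j i hj' (by omega) (by omega) (by omega) fun h h' => h4 ⟨h, h'⟩)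
        linarith
    have := MeasureTheory.Measure.nullSingletonClass_hausdorff Plane (d := 1) one_pos
    have mE : ∀ j, μH[1] (E j) = ENNReal.ofReal (dist (z j) (z (j + 1))) := fun j => by
      rw [measure_sdiff_null (V.finite_toSet.measure_zero _), hausdorffMeasure_segment, edist_dist]
    refine le_trans (le_of_eq ?_) (measure_mono sub)
    rw [measure_biUnion_finset]
    · simp only [mE]
      rw [← ENNReal.ofReal_sum_of_nonneg fun j _ => dist_nonneg]
      congr 1
      simp only [Finset.sum_range_succ, Pm, z0, zp 6 h6]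
      norm_num
    · intro i _ j _ hij
      rcases lt_or_gt_of_ne hij with h | h
      exacts [lt i j h, (lt j i h).symm]
    · intro j _
      rw [show E j = segment ℝ (z j) (z (j + 1)) \ V from rfl, ← convexHull_pair]
      exact ((toFinite _).isClosed_convexHull ℝ).measurableSet.diff V.measurableSet
  have p0 : 0 ≤ Pm (z 0) (z 1) (z 2) (z 3) (z 4) (z 5) := by unfold Pm; positivity
  calc ENNReal.ofReal (8 * √3) * volume T
      ≤ ENNReal.ofReal (8 * √3) * ENNReal.ofReal (S (z 0) (z 1) (z 2) (z 3) (z 4) (z 5) / 2) := by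
        gcongr
    _ ≤ ENNReal.ofReal (Pm (z 0) (z 1) (z 2) (z 3) (z 4) (z 5)) ^ 2 := by
        rw [← ENNReal.ofReal_mul (by positivity), ← ENNReal.ofReal_pow p0]
        refine ENNReal.ofReal_le_ofReal ?_
        have := hexalg (z 0) (z 1) (z 2) (z 3) (z 4) (z 5)
        linarith
    _ ≤ _ := by gcongr

end Pool.Agent.MP_9020c0_gt.Cvx
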