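import Pool.Agent.MP_9020c0_gt.Cvx.Alg

/-! Triangles, half-planes and extreme points in the plane. -/

set_option autoImplicit false

open Set Metric MeasureTheory
open scoped ENNReal

namespace Pool.Agent.MP_9020c0_gt.Cvx

lemma vol_std : volume {y : Plane | 0 ≤ y 0 ∧ 0 ≤ y 1 ∧ y 0 + y 1 ≤ 1} ≤ ENNReal.ofReal (1 / 2) := by
  refine ENNReal.le_of_forall_pos_le_add fun ε hε _ => ?_
  have hmp : MeasurePreserving (fun p : Plane => (p 0, p 1)) volume volume :=
    (volume_preserving_finTwoArrow ℝ).comp (PiLp.volume_preserving_ofLp (Fin 2))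
  have hf : Continuous fun _ : ℝ => -(ε / 2 : ℝ) := continuous_const
  have hg : Continuous fun x : ℝ => 1 - x + (ε / 2 : ℝ) := by fun_prop
  have e0 : (0 : ℝ) < ε := hε
  have h1 := volume_regionBetween_eq_integral (μ := volume) (s := Icc (0 : ℝ) 1)
    (hf.continuousOn.integrableOn_compact isCompact_Icc)
    (hg.continuousOn.integrableOn_compact isCompact_Icc) measurableSet_Icc
    (fun x hx => by have := hx.2; linarith)
  have h2 := hmp.measure_preimage
    (measurableSet_regionBetween hf.measurable hg.measurable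
      (measurableSet_Icc (a := (0 : ℝ)) (b := 1))).nullMeasurableSet
  have h3 : ∫ x in Icc (0 : ℝ) 1, ((fun x : ℝ => 1 - x + (ε / 2 : ℝ)) - fun _ : ℝ => -(ε / 2 : ℝ)) x
      = 1 / 2 + ε := by
    rw [integral_Icc_eq_integral_Ioc, ← intervalIntegral.integral_of_le zero_le_one]
    have : ∀ x : ℝ, ((fun x : ℝ => 1 - x + (ε / 2 : ℝ)) - fun _ : ℝ => -(ε / 2 : ℝ)) x =
        (1 + ε) - x := fun x => by simp only [Pi.sub_apply]; ring
    simp only [this]
    rw [intervalIntegral.integral_sub (by simp) (by simp), integral_id]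
    simp only [intervalIntegral.integral_const, smul_eq_mul]
    ring
  rw [Measure.volume_eq_prod, h1, h3, ENNReal.ofReal_add (by norm_num) e0.le,
    ENNReal.ofReal_coe_nnreal] at h2
  rw [← h2]
  refine measure_mono fun p hp => ⟨⟨hp.1, ?_⟩, ?_, ?_⟩
  · have := hp.2.1; have := hp.2.2; simp only; linarith
  · have := hp.2.1; simp only; linarith
  · have := hp.2.2; simp only; linarith

/-- The triangle as an intersection of three half-planes. -/
def Tri (a b c : Plane) : Set Plane := {x | 0 ≤ D a b x ∧ 0 ≤ D b c x ∧ 0 ≤ D c a x}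

lemma vol_tri {a b c : Plane} (h : 0 < D a b c) :
    volume (Tri a b c) ≤ ENNReal.ofReal (D a b c / 2) := by
  let M : Matrix (Fin 2) (Fin 2) ℝ := !![b 0 - a 0, c 0 - a 0; b 1 - a 1, c 1 - a 1]
  let f : Plane →ₗ[ℝ] Plane := Matrix.toLpLin 2 2 M
  have hd : LinearMap.det f = D a b c := by
    simp only [f, Matrix.toLpLin_eq_toLin, LinearMap.det_toLin, M, Matrix.det_fin_two_of, D]
    ring
  have hs : Tri a b c ⊆ (fun x => x + -a) ⁻¹'
      (f '' {y : Plane | 0 ≤ y 0 ∧ 0 ≤ y 1 ∧ y 0 + y 1 ≤ 1}) := by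
    rintro x ⟨h1, h2, h3⟩
    refine ⟨pnt (D c a x / D a b c) (D a b x / D a b c), ⟨?_, ?_, ?_⟩, pl_ext ?_ ?_⟩
    · simp only [pnt_zero]; positivity
    · simp only [pnt_one]; positivity
    · simp only [pnt_zero, pnt_one]
      rw [← add_div, div_le_one h]
      simp only [D] at h2 ⊢
      linarith
    · simp only [f, M, Matrix.toLpLin_apply, Matrix.mulVec, dotProduct, Fin.sum_univ_two]
      simp
      field_simp
      simp only [D]
      ring
    · simp only [f, M, Matrix.toLpLin_apply, Matrix.mulVec, dotProduct, Fin.sum_univ_two]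
      simp
      field_simp
      simp only [D]
      ring
  refine (measure_mono hs).trans ?_
  rw [measure_preimage_add_right, Measure.addHaar_image_linearMap, hd, abs_of_pos h,
    div_eq_mul_one_div, ENNReal.ofReal_mul h.le]
  gcongr
  exact vol_std

lemma D_combo (a b x y : Plane) {s t : ℝ} (h : s + t = 1) :
    D a b (s • x + t • y) = s * D a b x + t * D a b y := by
  obtain rfl : t = 1 - s := by linarith
  simp only [D, PiLp.add_apply, PiLp.smul_apply, smul_eq_mul]
  ring

lemma convex_D (a b : Plane) : Convex ℝ {x | 0 ≤ D a b x} := by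
  intro x hx y hy s t hs ht h
  simp only [mem_ofPred_eq] at hx hy ⊢
  rw [D_combo a b x y h]
  positivity

lemma exists_eps {T : Set Plane} {x : Plane} (hx : T ∈ nhds x) (w : Plane) :
    ∃ ε : ℝ, 0 < ε ∧ x + ε • w ∈ T ∧ x - ε • w ∈ T := by
  have h1 : Filter.Tendsto (fun ε : ℝ => x + ε • w) (nhds 0) (nhds x) := by
    have : Continuous fun ε : ℝ => x + ε • w := by fun_prop
    simpa using this.tendsto 0
  have h2 : Filter.Tendsto (fun ε : ℝ => x - ε • w) (nhds 0) (nhds x) := by
    have : Continuous fun ε : ℝ => x - ε • w := by fun_prop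
    simpa using this.tendsto 0
  have h3 : ∀ᶠ ε : ℝ in nhdsWithin 0 (Ioi 0), x + ε • w ∈ T ∧ x - ε • w ∈ T :=
    ((h1.eventually hx).and (h2.eventually hx)).filter_mono nhdsWithin_le_nhds
  obtain ⟨ε, h, h'⟩ := (h3.and self_mem_nhdsWithin).exists
  exact ⟨ε, h', h⟩

lemma sq_pos_of_ne {a b : Plane} (h : a ≠ b) : 0 < (a 0 - b 0) ^ 2 + (a 1 - b 1) ^ 2 := by
  rw [← dist_sq]
  exact pow_pos (dist_pos.2 h) 2

lemma not_interior {T : Set Plane} {a b x : Plane} (hab : a ≠ b) (h : ∀ y ∈ T, 0 ≤ D a b y)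
    (hx : D a b x = 0) : x ∉ interior T := by
  intro hi
  obtain ⟨ε, h0, h1, -⟩ := exists_eps (mem_interior_iff_mem_nhds.1 hi) (pnt (b 1 - a 1) (a 0 - b 0))
  have h2 := h _ h1
  have h3 := mul_pos h0 (sq_pos_of_ne hab)
  simp only [D, PiLp.add_apply, PiLp.smul_apply, smul_eq_mul, pnt_zero, pnt_one] at h2 hx
  nlinarith

/-- An extreme point is not a convex combination of three other points. -/
lemma not_combo {T : Set Plane} (hv : Convex ℝ T) {x a b c : Plane} (hx : x ∈ T.extremePoints ℝ)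
    (ha : a ∈ T) (hb : b ∈ T) (hc : c ∈ T) (ha' : a ≠ x) (hb' : b ≠ x) (hc' : c ≠ x)
    {α β γ : ℝ} (h1 : 0 ≤ α) (h2 : 0 ≤ β) (h3 : 0 ≤ γ) (h4 : 0 < α + β + γ)
    (e0 : α * a 0 + β * b 0 + γ * c 0 = (α + β + γ) * x 0)
    (e1 : α * a 1 + β * b 1 + γ * c 1 = (α + β + γ) * x 1) : False := by
  have hcv := (hv.mem_extremePoints_iff_convex_sdiff.1 hx).2
  have hm := hcv.sum_mem (t := Finset.univ) (w := ![α / (α + β + γ), β / (α + β + γ), γ / (α + β + γ)])
    (z := ![a, b, c]) (fun i _ => by fin_cases i <;> simp <;> positivity)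
    (by simp [Fin.sum_univ_three]; field_simp)
    (fun i _ => by fin_cases i <;> simp [ha, hb, hc, ha', hb', hc'])
  refine hm.2 (pl_ext ?_ ?_)
  · simp [Fin.sum_univ_three]; field_simp; linarith
  · simp [Fin.sum_univ_three]; field_simp; linarith

lemma not_in_tri {T : Set Plane} (hv : Convex ℝ T) {x a b c : Plane} (hx : x ∈ T.extremePoints ℝ)
    (ha : a ∈ T) (hb : b ∈ T) (hc : c ∈ T) (ha' : a ≠ x) (hb' : b ≠ x) (hc' : c ≠ x)
    (h1 : 0 ≤ D x b c) (h2 : 0 ≤ D x c a) (h3 : 0 ≤ D x a b)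
    (h4 : 0 < D x b c + D x c a + D x a b) : False :=
  not_combo hv hx ha hb hc ha' hb' hc' h1 h2 h3 h4 (by simp only [D]; ring) (by simp only [D]; ring)

/-- Three distinct extreme points are not collinear. -/
lemma D_ne {T : Set Plane} (hv : Convex ℝ T) {a b c : Plane} (ha : a ∈ T.extremePoints ℝ)
    (hb : b ∈ T.extremePoints ℝ) (hc : c ∈ T.extremePoints ℝ) (hab : a ≠ b) (hbc : b ≠ c)
    (hac : a ≠ c) : D a b c ≠ 0 := by
  intro h
  have hp := sq_pos_of_ne hab
  set N := (a 0 - b 0) ^ 2 + (a 1 - b 1) ^ 2 with hN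
  set t := (b 0 - a 0) * (c 0 - a 0) + (b 1 - a 1) * (c 1 - a 1) with ht
  simp only [D] at h
  have k0 : N * (c 0 - a 0) = t * (b 0 - a 0) := by
    rw [hN, ht]; linear_combination (a 1 - b 1) * h
  have k1 : N * (c 1 - a 1) = t * (b 1 - a 1) := by
    rw [hN, ht]; linear_combination (b 0 - a 0) * h
  rcases le_total t 0 with h1 | h1
  · exact not_combo hv ha hb.1 hc.1 hc.1 hab.symm hac.symm hac.symm (α := -t) (β := N) (γ := 0)
      (by linarith) hp.le le_rfl (by linarith) (by linarith) (by linarith)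
  rcases le_total t N with h2 | h2
  · exact not_combo hv hc ha.1 hb.1 hb.1 hac hbc hbc (α := N - t) (β := t) (γ := 0)
      (by linarith) h1 le_rfl (by linarith) (by linarith) (by linarith)
  · exact not_combo hv hb ha.1 hc.1 hc.1 hab hbc.symm hbc.symm (α := t - N) (β := N) (γ := 0)
      (by linarith) hp.le le_rfl (by linarith) (by linarith) (by linarith)

end Pool.Agent.MP_9020c0_gt.Cvx
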